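import Pool.Agent.helper96.PP2.SpecC

/-!
# Row pg:PWT of MP_655a6f_al: the p-th power
-/

set_option autoImplicit false

namespace Pool.Agent.PP2

open Topology Matrix

section

variable {R : Type} [CommRing R]

/-- The multipliers of an additive group of matrices. -/
def PWT_S (V : AddSubgroup (M2 R)) : Subring R where
  carrier := {s | ∀ W ∈ V, s • W ∈ V}
  mul_mem' := by
    intro a b ha hb W hW
    rw [mul_smul]
    exact ha _ (hb _ hW)
  one_mem' := by
    intro W hW
    rw [one_smul]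
    exact hW
  add_mem' := by
    intro a b ha hb W hW
    rw [add_smul]
    exact V.add_mem (ha _ hW) (hb _ hW)
  zero_mem' := by
    intro W hW
    rw [zero_smul]
    exact V.zero_mem
  neg_mem' := by
    intro a ha W hW
    rw [neg_smul]
    exact V.neg_mem (ha _ hW)

theorem PWT_mem_S (V : AddSubgroup (M2 R)) (s : R) : s ∈ PWT_S V ↔ ∀ W ∈ V, s • W ∈ V := Iff.rfl

theorem PWT_closed [TopologicalSpace R] [IsTopologicalRing R] (V : AddSubgroup (M2 R))
    (hV : IsClosed (V : Set (M2 R))) : IsClosed (PWT_S V : Set R) := by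
  have e : (PWT_S V : Set R) = ⋂ W ∈ V, (fun s : R => s • W) ⁻¹' (V : Set (M2 R)) := by
    ext s
    simp only [SetLike.mem_coe, PWT_mem_S, Set.mem_iInter, Set.mem_preimage]
  rw [e]
  exact isClosed_biInter fun W _ => hV.preimage (continuous_id.smul continuous_const)

/-- The additive group `q S`. -/
def PWT_qS (q : R) (S : Subring R) : AddSubgroup R :=
  S.toAddSubgroup.map (AddMonoidHom.mulLeft q)

theorem PWT_mem_qS (q : R) (S : Subring R) (x : R) : x ∈ PWT_qS q S ↔ ∃ s ∈ S, q * s = x :=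
  Iff.rfl

theorem PWT_closed_qS [TopologicalSpace R] [IsTopologicalRing R] [CompactSpace R] [T2Space R]
    (q : R) (S : Subring R) (hS : IsClosed (S : Set R)) : IsClosed (PWT_qS q S : Set R) := by
  have e : (PWT_qS q S : Set R) = (fun s : R => q * s) '' (S : Set R) := rfl
  rw [e]
  exact (hS.isCompact.image (continuous_const.mul continuous_id)).isClosed

theorem PWT_pow [Invertible (2 : R)] (g : GL (Fin 2) R) (q s : R) (S : Subring R)
    (hq : q ∈ S) (hs : s ∈ S) (hX : TH g * TH g = q • (1 : M2 R)) (ha : ht g = 1 + q * s) (k : ℕ) :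
    ∃ α ∈ S, ∃ β ∈ S, ((g ^ k : GL (Fin 2) R) : M2 R)
      = (1 + q * α) • (1 : M2 R) + ((k : R) + q * β) • TH g := by
  induction k with
  | zero =>
    refine ⟨0, S.zero_mem, 0, S.zero_mem, ?_⟩
    simp
  | succ k ih =>
    obtain ⟨α, hα, β, hβ, h⟩ := ih
    refine ⟨α + s + q * (α * s) + (k : R) + q * β,
      S.add_mem (S.add_mem (S.add_mem (S.add_mem hα hs) (S.mul_mem hq (S.mul_mem hα hs)))
        (natCast_mem S k)) (S.mul_mem hq hβ),
      α + s * (k : R) + β + q * (s * β),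
      S.add_mem (S.add_mem (S.add_mem hα (S.mul_mem hs (natCast_mem S k))) hβ)
        (S.mul_mem hq (S.mul_mem hs hβ)), ?_⟩
    have e : ((g ^ (k + 1) : GL (Fin 2) R) : M2 R)
        = ((g ^ k : GL (Fin 2) R) : M2 R) * (g : M2 R) := by
      rw [pow_succ]
      rfl
    rw [e, h, Lib_decomp g, ha]
    set X := TH g with hXd
    have hX' := hX
    rw [add_mul, mul_add, mul_add]
    simp only [Matrix.smul_mul, Matrix.mul_smul, one_mul, mul_one, hX, smul_smul]
    push_cast
    have e2 : ∀ (a b c d : R), a • (1 : M2 R) + b • X + (c • X + d • (1 : M2 R))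
        = (a + d) • (1 : M2 R) + (b + c) • X := by
      intro a b c d
      rw [add_smul, add_smul]
      abel
    rw [e2]
    congr 2 <;> ring

end

theorem PWT_row (hHAV : HAV_stmt) (hSQR : SQR_stmt) (hSQU : SQU_stmt) : PWT_stmt := by
  intro p R _ _ _ _ _ _ J hp hp2 hJ V hV m hm g hg X' hX' hX
  have hhalf := Lib_half (R := R)
  set S := PWT_S V with hS
  have hScl : IsClosed (S : Set R) := PWT_closed V hV.closed
  have hq' : ⅟(2 : R) * Bf X' X' ∈ S := by
    intro W hW
    rw [mul_smul]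
    exact hV.half _ (hV.bf _ hX' _ hX' _ hW)
  set q' := ⅟(2 : R) * Bf X' X' with hq'd
  set q : R := (p : R) ^ (2 * m) * q' with hqd
  have hpS : ∀ k : ℕ, (p : R) ^ k ∈ S := fun k => S.pow_mem (natCast_mem S p) k
  have hq : q ∈ S := S.mul_mem (hpS _) hq'
  have hqJ : q ∈ J := by
    refine J.mul_mem_right _ ?_
    have : (p : R) ^ (2 * m) = (p : R) * (p : R) ^ (2 * m - 1) := by
      rw [← pow_succ']
      congr 1
      omega
    rw [this]
    exact J.mul_mem_right _ hJ.pmem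
  have hB : ⅟(2 : R) * Bf (TH g) (TH g) = q := by
    rw [hX, Lib_Bf_smul, Lib_smul_Bf, hqd, hq'd]
    ring
  have hXX : TH g * TH g = q • (1 : M2 R) := by
    rw [Lib_sq (TH g) (Lib_trace_TH g), hB]
  obtain ⟨c, hcJ, hc, hcS⟩ := hSQR p R J hp hp2 hJ q hqJ
  have hcq : c ∈ PWT_qS q S := by
    refine hcS (PWT_qS q S) (PWT_closed_qS q S hScl) ?_ ?_
    · rintro x ⟨s, hs, rfl⟩ y ⟨s', hs', rfl⟩
      refine ⟨q * (s * s'), S.mul_mem hq (S.mul_mem hs hs'), ?_⟩
      simp only [AddMonoidHom.coe_mulLeft]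
      ring
    · exact ⟨1, S.one_mem, by simp⟩
  have hac : ht g - 1 = c := by
    refine (hSQU p R J hp hp2 hJ).2 (ht g - 1) (Lib_ht_sub_one J g hg) c hcJ ?_
    rw [hc]
    have := Lib_ht_sq J g hg
    rw [hB] at this
    rw [← this]
    ring
  obtain ⟨s, hs, hsc⟩ := (PWT_mem_qS q S c).1 hcq
  have ha : ht g = 1 + q * s := by
    rw [hsc, ← hac]
    ring
  obtain ⟨α, hα, β, hβ, h⟩ := PWT_pow g q s S hq hs hXX ha p
  refine ⟨(p : R) ^ (2 * m - 2) * q' * β, S.mul_mem (S.mul_mem (hpS _) hq') hβ, ?_⟩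
  have e1 : TH (g ^ p) = Th ((g ^ p : GL (Fin 2) R) : M2 R) := rfl
  rw [e1, h, Lib_Th_add, Lib_Th_smul, Lib_Th_smul, Lib_Th_one, smul_zero, zero_add,
    Lib_Th_of_trace _ (Lib_trace_TH g), hX, smul_smul]
  congr 1
  obtain ⟨n, rfl⟩ : ∃ n, m = n + 1 := ⟨m - 1, by omega⟩
  have e2 : 2 * (n + 1) - 2 = 2 * n := by omega
  rw [e2, hqd]
  ring

end Pool.Agent.PP2
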