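import Pool.Agent.helper96.PP2.SpecC

/-!
# Row pg:UNF of MP_655a6f_al: the uniform filtration
-/

set_option autoImplicit false

namespace Pool.Agent.PP2

open Topology Matrix

section

variable {R : Type} [CommRing R]

theorem UNF_mem_sN (c : R) (N : AddSubgroup (M2 R)) (X : M2 R) :
    X ∈ sN c N ↔ ∃ Y ∈ N, c • Y = X := Iff.rfl

theorem UNF_sN_one (N : AddSubgroup (M2 R)) : sN (1 : R) N = N := by
  ext X
  rw [UNF_mem_sN]
  constructor
  · rintro ⟨Y, hY, rfl⟩
    rwa [one_smul]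
  · intro h
    exact ⟨X, h, one_smul _ _⟩

theorem UNF_sN_zero (c : R) (N : AddSubgroup (M2 R)) : sN (c ^ 0) N = N := by
  rw [pow_zero, UNF_sN_one]

/-- multiplication by `c^k` on `V` -/
noncomputable def UNF_f (c : R) (V : AddSubgroup (M2 R)) (k : ℕ) : V →+ M2 R :=
  (DistribSMul.toAddMonoidHom (M2 R) (c ^ k)).comp V.subtype

theorem UNF_f_apply (c : R) (V : AddSubgroup (M2 R)) (k : ℕ) (x : V) :
    UNF_f c V k x = c ^ k • (x : M2 R) := rfl

theorem UNF_inj (c : R) (V : AddSubgroup (M2 R)) (hV : ∀ W ∈ V, c • W = 0 → W = 0)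
    (hc : ∀ W ∈ V, c • W ∈ V) (k : ℕ) : Function.Injective (UNF_f c V k) := by
  rw [injective_iff_map_eq_zero]
  intro x hx
  rw [UNF_f_apply] at hx
  have key : ∀ (n : ℕ) (W : M2 R), W ∈ V → c ^ n • W = 0 → W = 0 := by
    intro n
    induction n with
    | zero =>
      intro W _ h
      rwa [pow_zero, one_smul] at h
    | succ n ih =>
      intro W hW h
      rw [pow_succ, mul_smul] at h
      exact hV W hW (ih _ (hc _ hW) h)
  exact Subtype.ext (key k x x.2 hx)

theorem UNF_index (c : R) (V : AddSubgroup (M2 R)) (hV : ∀ W ∈ V, c • W = 0 → W = 0)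
    (hc : ∀ W ∈ V, c • W ∈ V) (k : ℕ) :
    (sN (c ^ (k + 1)) V).relIndex (sN (c ^ k) V) = (sN c V).relIndex V := by
  have e1 : sN (c ^ k) V = (⊤ : AddSubgroup V).map (UNF_f c V k) := by
    ext X
    rw [UNF_mem_sN, AddSubgroup.mem_map]
    constructor
    · rintro ⟨Y, hY, rfl⟩
      exact ⟨⟨Y, hY⟩, AddSubgroup.mem_top _, rfl⟩
    · rintro ⟨Y, -, rfl⟩
      exact ⟨Y, Y.2, rfl⟩
  have e2 : sN (c ^ (k + 1)) V = ((sN c V).addSubgroupOf V).map (UNF_f c V k) := by
    ext X
    rw [UNF_mem_sN, AddSubgroup.mem_map]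
    constructor
    · rintro ⟨Y, hY, rfl⟩
      refine ⟨⟨c • Y, hc _ hY⟩, ?_, ?_⟩
      · rw [AddSubgroup.mem_addSubgroupOf]
        exact ⟨Y, hY, rfl⟩
      · rw [UNF_f_apply, pow_succ, mul_smul]
    · rintro ⟨Y, hY, rfl⟩
      rw [AddSubgroup.mem_addSubgroupOf] at hY
      obtain ⟨Z, hZ, h⟩ := (UNF_mem_sN c V _).1 hY
      refine ⟨Z, hZ, ?_⟩
      rw [UNF_f_apply, pow_succ, mul_smul, h]
  rw [e1, e2, AddSubgroup.relIndex_map_map_of_injective _ _ (UNF_inj c V hV hc k),
    AddSubgroup.relIndex_top_right]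
  rfl

theorem UNF_relIndex (c : R) (V : AddSubgroup (M2 R)) (hV : ∀ W ∈ V, c • W = 0 → W = 0)
    (hc : ∀ W ∈ V, c • W ∈ V) (h0 : (sN c V).relIndex V ≠ 0) (k j : ℕ) :
    (sN (c ^ (k + j)) V).relIndex (sN (c ^ k) V) ≠ 0 := by
  have mono : ∀ a b : ℕ, a ≤ b → sN (c ^ b) V ≤ sN (c ^ a) V := by
    intro a b hab
    rintro X ⟨Y, hY, rfl⟩
    obtain ⟨n, rfl⟩ := Nat.exists_eq_add_of_le hab
    have key : ∀ (n : ℕ) (W : M2 R), W ∈ V → c ^ n • W ∈ V := by
      intro n
      induction n with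
      | zero =>
        intro W h
        rwa [pow_zero, one_smul]
      | succ n ih =>
        intro W h
        rw [pow_succ, mul_smul]
        exact ih _ (hc _ h)
    refine ⟨c ^ n • Y, key n Y hY, ?_⟩
    change c ^ a • (c ^ n • Y) = c ^ (a + n) • Y
    rw [smul_smul, ← pow_add]
  induction j with
  | zero =>
    rw [add_zero, AddSubgroup.relIndex_self]
    exact one_ne_zero
  | succ j ih =>
    have h1 := AddSubgroup.relIndex_mul_relIndex (sN (c ^ (k + (j + 1))) V) (sN (c ^ (k + j)) V)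
      (sN (c ^ k) V) (mono _ _ (by omega)) (mono _ _ (by omega))
    rw [← h1]
    refine mul_ne_zero ?_ ih
    have h2 := UNF_index c V hV hc (k + j)
    rw [show k + (j + 1) = k + j + 1 from rfl, h2]
    exact h0

variable [Invertible (2 : R)]

theorem UNF_ES_mono (J : Ideal R) {N N' : AddSubgroup (M2 R)} (h : N ≤ N') : ES J N ≤ ES J N' := by
  unfold ES
  exact Subgroup.closure_mono fun g hg => ⟨hg.1, h hg.2⟩

end

theorem UNF_row (hSUB : SUB_stmt) (hIDX : IDX_stmt) (hPMV : PMV_stmt) (hUPI : UPI_stmt)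
    (hURT : URT_stmt) (hUBA : UBA_stmt) (hUCO : UCO_stmt) (hTDG : TDG_stmt) : UNF_stmt := by
  intro p R _ _ _ _ _ _ J hp hp2 hJ V d hV htf hd
  have hc : ∀ W ∈ V, (p : R) • W ∈ V := by
    intro W hW
    rw [Nat.cast_smul_eq_nsmul]
    exact V.nsmul_mem hW p
  have h0 : (sN (p : R) V).relIndex V ≠ 0 := by
    rw [hd]
    exact pow_ne_zero _ hp.ne_zero
  obtain ⟨-, hS⟩ := hSUB p R J hp hp2 hJ
  have hP := hPMV p R J hp hp2 hJ V hV
  have hI : ∀ m m' : ℕ, m ≤ m' → IdP J (sN ((p : R) ^ m') V) (sN ((p : R) ^ m) V) :=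
    fun m m' h => (hP m m' h).2
  have hA : ∀ m : ℕ, Adm J (sN ((p : R) ^ m) V) := fun m => (hP m m le_rfl).1
  have hle : ∀ m m' : ℕ, m ≤ m' → ES J (sN ((p : R) ^ m') V) ≤ ES J (sN ((p : R) ^ m) V) :=
    fun m m' h => UNF_ES_mono J (hI m m' h).le
  have hX := hIDX p R J hp hp2 hJ
  set U := ES J (sN ((p : R) ^ 2) V) with hU
  have hidx : ∀ j : ℕ, ((ES J (sN ((p : R) ^ (2 + j)) V)).subgroupOf U).index
      = (sN ((p : R) ^ (2 + j)) V).relIndex (sN ((p : R) ^ 2) V) := by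
    intro j
    exact (hX _ _ (hI 2 (2 + j) (by omega))).2.1
  refine ⟨?_, ?_⟩
  · refine
      { top := ?_
        anti := ?_
        op := ?_
        nor := ?_
        basis := ?_
        com := ?_
        pow := ?_
        inj := ?_
        root := ?_ }
    · exact Subgroup.subgroupOf_self _
    · intro i j hij x hx
      rw [Subgroup.mem_subgroupOf] at hx ⊢
      exact hle _ _ (by omega) hx
    · intro j
      have hcl : IsClosed (((ES J (sN ((p : R) ^ (2 + j)) V)).subgroupOf U : Subgroup U) : Set U) := by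
        have h1 := (hS _ (hA (2 + j))).2
        exact h1.preimage continuous_subtype_val
      have hfi : ((ES J (sN ((p : R) ^ (2 + j)) V)).subgroupOf U).FiniteIndex := by
        refine ⟨?_⟩
        rw [hidx j]
        exact UNF_relIndex (p : R) V htf hc h0 2 j
      exact Subgroup.isOpen_of_isClosed_of_finiteIndex _ hcl
    · intro j
      refine ⟨?_⟩
      intro h hh g
      rw [Subgroup.mem_subgroupOf] at hh ⊢
      exact (hX _ _ (hI 2 (2 + j) (by omega))).2.2 g.1 g.2 h.1 hh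
    · intro W hW
      rw [nhds_subtype_eq_comap, Filter.mem_comap] at hW
      obtain ⟨W', hW', hWW⟩ := hW
      obtain ⟨m, hm⟩ := hUBA p R J hp hp2 hJ V hV W' (by simpa using hW')
      refine ⟨m, ?_⟩
      intro x hx
      rw [SetLike.mem_coe, Subgroup.mem_subgroupOf] at hx
      exact hWW (hm (hle _ _ (by omega) hx))
    · intro j x hx y hy
      rw [Subgroup.mem_subgroupOf] at hx hy ⊢
      exact hUCO p R J hp hp2 hJ V hV j x.1 hx y.1 hy
    · intro j x hx
      rw [Subgroup.mem_subgroupOf] at hx ⊢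
      exact (hUPI p R J hp hp2 hJ V hV htf (2 + j) (by omega)).1 x.1 hx
    · intro x y hxy
      apply Subtype.ext
      refine (hUPI p R J hp hp2 hJ V hV htf 2 (by omega)).2 x.1 x.2 y.1 y.2 ?_
      have := congrArg Subtype.val hxy
      simpa using this
    · intro j y hy
      rw [Subgroup.mem_subgroupOf] at hy
      obtain ⟨g, hg, hgy⟩ := hURT p R J hp hp2 hJ V hV (2 + j) (by omega) y.1 hy
      have hgU : g ∈ U := hle 2 (2 + j) (by omega) hg
      refine ⟨⟨g, hgU⟩, ?_, ?_⟩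
      · rw [Subgroup.mem_subgroupOf]
        exact hg
      · apply Subtype.ext
        simpa using hgy
  · rw [hidx 1, UNF_index (p : R) V htf hc 2, hd]

end Pool.Agent.PP2
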